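import Mathlib
import Pool.Agent.Helper25_TD.Oracle

/-!
# Codes of meager sets
-/

set_option autoImplicit false

namespace Pool.Agent.Helper56WM

open Pool.Agent.Helper25TD

/-- the string `u` occurs in `x` at place `k` -/
def Occurs (u : List Bool) (x : ℕ → Bool) (k : ℕ) : Prop :=
  ∀ j < u.length, x (k + j) = u.getD j false

/-- The meager set with code `C`: the set of all `x` such that for all but finitely many `k` the
string `C k` does not occur in `x` at place `k`. -/
def Mg (C : ℕ → List Bool) : Set (ℕ → Bool) := {x | ∃ N, ∀ k ≥ N, ¬ Occurs (C k) x k}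

/-- the sequence `C` of strings is computable from `y` -/
def Computes (y : ℕ → Bool) (C : ℕ → List Bool) : Prop :=
  Nat.RecursiveIn {chi y} fun k => (Encodable.encode (C k) : Part ℕ)

/-- `y` computes a code of a meager set that contains `S` -/
def Captures (y : ℕ → Bool) (S : Set (ℕ → Bool)) : Prop := ∃ C, Computes y C ∧ S ⊆ Mg C

/-- the union of all sets of the family with index at most `i` -/
def Upto {ι : Type*} [LinearOrder ι] (M : ι → Set (ℕ → Bool)) (i : ι) : Set (ℕ → Bool) :=
  ⋃ j ∈ Set.Iic i, M j

/-- The set of all `y` that do not capture the union of those sets `Upto M i` which `y`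
captures. -/
def Uncaptured {ι : Type*} [LinearOrder ι] (M : ι → Set (ℕ → Bool)) : Set (ℕ → Bool) :=
  {y | ¬ Captures y (⋃ i ∈ {i | Captures y (Upto M i)}, Upto M i)}

end Pool.Agent.Helper56WM
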