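import Mathlib
import Pool.Agent.Helper56_WM.Defs
import Pool.Agent.Helper55_AX.Min
import Pool.Agent.Helper56_TB.Category

/-!
# Codes of meager sets: basic facts
-/

set_option autoImplicit false

namespace Pool.Agent.Helper56WM

open Pool.Agent.Helper25TD Pool.Agent.Helper55AX Topology

theorem Occurs.mid {a u b : List Bool} {x : ℕ → Bool} {k : ℕ} (h : Occurs (a ++ u ++ b) x k) :
    Occurs u x (k + a.length) := by
  intro j hj
  have h1 := h (a.length + j) (by simp; omega)
  rw [← add_assoc] at h1
  rw [h1]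
  simp only [List.getD_eq_getElem?_getD]
  congr 1
  rw [List.append_assoc, List.getElem?_append_right (by omega), Nat.add_sub_cancel_left,
    List.getElem?_append_left hj]

theorem Mg.mono {P C : ℕ → List Bool} {K : ℕ}
    (h : ∀ k ≥ K, ∃ a b, C k = a ++ P (k + a.length) ++ b) : Mg P ⊆ Mg C := by
  rintro x ⟨N, hN⟩
  refine ⟨max N K, fun k hk hocc => ?_⟩
  obtain ⟨a, b, hab⟩ := h k ((le_max_right _ _).trans hk)
  rw [hab] at hocc
  have := (le_max_left N K).trans hk
  exact hN (k + a.length) (by omega) hocc.mid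

theorem isOpen_occurs (u : List Bool) (k : ℕ) : IsOpen {x : ℕ → Bool | Occurs u x k} := by
  have h1 : {x : ℕ → Bool | Occurs u x k} =
      ⋂ j ∈ Finset.range u.length, {x : ℕ → Bool | x (k + j) = u.getD j false} := by
    ext x
    simp [Occurs]
  rw [h1]
  refine isOpen_biInter_finset fun j _ => ?_
  exact (isOpen_discrete {u.getD j false}).preimage
    (continuous_apply (k + j) : Continuous fun x : ℕ → Bool => x (k + j))

theorem isMeagre_Mg (C : ℕ → List Bool) : IsMeagre (Mg C) := by
  have h1 : Mg C = ⋃ N, {x | ∀ k ≥ N, ¬ Occurs (C k) x k} := by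
    ext x
    simp [Mg]
  rw [h1]
  refine isMeagre_iUnion fun N => ?_
  have hcl : IsClosed {x : ℕ → Bool | ∀ k ≥ N, ¬ Occurs (C k) x k} := by
    have h2 : {x : ℕ → Bool | ∀ k ≥ N, ¬ Occurs (C k) x k} =
        ⋂ k, ⋂ (_ : k ≥ N), {x : ℕ → Bool | Occurs (C k) x k}ᶜ := by
      ext x
      simp
    rw [h2]
    exact isClosed_iInter fun k => isClosed_iInter fun _ => (isOpen_occurs (C k) k).isClosed_compl
  refine IsNowhereDense.isMeagre ?_
  rw [hcl.isNowhereDense_iff, Set.eq_empty_iff_forall_notMem]
  intro y hy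
  obtain ⟨O, hO, hOo, hyO⟩ := mem_interior.1 hy
  obtain ⟨M, hM⟩ := exists_cyl hOo hyO
  let k := max M N
  have h3 : (fun n => if n < k then y n else (C k).getD (n - k) false) ∈ O := by
    refine hM _ fun j hj => ?_
    have : j < k := hj.trans_le (le_max_left _ _)
    simp [this]
  refine hO h3 k (le_max_right _ _) fun j _ => ?_
  have h4 : ¬ k + j < k := by omega
  simp [h4]

/-- every meager set has a code -/
theorem exists_Mg {S : Set (ℕ → Bool)} (hS : IsMeagre S) : ∃ C, S ⊆ Mg C := by
  obtain ⟨a, u, ha, H⟩ := Pool.Agent.Helper56TB.exists_match (R := Sᶜ) hS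
  refine ⟨fun k => (List.range (a (k + 1) - k)).map fun j => u k (k + j), fun x hx => ?_⟩
  by_contra hcon
  refine H x (fun N => ?_) hx
  simp only [Mg, Set.mem_ofPred_eq, not_exists, not_forall, not_not] at hcon
  obtain ⟨k, hk, hocc⟩ := hcon N
  refine ⟨k, hk, fun n hn => ?_⟩
  rw [Set.mem_Ico] at hn
  have h1 : k ≤ a k := ha.le_apply
  have h2 := hocc (n - k) (by simp; omega)
  have h3 : k + (n - k) = n := by omega
  have h4 : n - k < a (k + 1) - k := by omega
  rw [h3] at h2
  rw [h2]
  simp [List.getD_eq_getElem?_getD, h4, h3]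

theorem Captures.mono {y y' : ℕ → Bool} {S S' : Set (ℕ → Bool)} (h : Captures y S)
    (hy : TLE y y') (hS : S' ⊆ S) : Captures y' S' := by
  obtain ⟨C, hC, hSC⟩ := h
  refine ⟨C, ?_, hS.trans hSC⟩
  exact RecursiveIn.iff_nat.1 (RecursiveIn.subst (RecursiveIn.iff_nat.2 hC) (by
    rintro g hg
    rw [Set.mem_singleton_iff] at hg
    subst hg
    exact hy))

theorem TR.mono {y y' : ℕ → Bool} {f : ℕ → ℕ} (h : TR y f) (hy : TLE y y') : TR y' f := by
  exact RecursiveIn.iff_nat.1 (RecursiveIn.subst (RecursiveIn.iff_nat.2 h) (by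
    rintro g hg
    rw [Set.mem_singleton_iff] at hg
    subst hg
    exact hy))

theorem Computes.mono {y y' : ℕ → Bool} {C : ℕ → List Bool} (h : Computes y C)
    (hy : TLE y y') : Computes y' C := TR.mono (f := fun k => Encodable.encode (C k)) h hy

theorem exists_computes (C : ℕ → List Bool) : ∃ z, ∀ y, TLE z y → Computes y C :=
  Pool.Agent.Helper56TB.exists_code_fun fun k => Encodable.encode (C k)

theorem turingInvariant_uncaptured {ι : Type*} [LinearOrder ι] (M : ι → Set (ℕ → Bool)) :
    TuringInvariant (Uncaptured M) := by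
  intro x y hxy hyx hx hy
  refine hx (Captures.mono hy hyx ?_)
  refine Set.biUnion_subset_biUnion_left fun i hi => ?_
  exact Captures.mono hi hxy subset_rfl

/-! ### the union of all meager sets with a code computable from a given real -/

/-- the union of the meager sets with a code computable from `z` -/
def NN (z : ℕ → Bool) : Set (ℕ → Bool) := ⋃ C ∈ {C | Computes z C}, Mg C

theorem countable_computes (z : ℕ → Bool) : {C | Computes z C}.Countable := by
  have h1 : {C | Computes z C} ⊆ ⋃ c : OCode,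
      {C | ∀ k, Encodable.encode (C k) ∈ eval (chi z) c k} := by
    intro C hC
    obtain ⟨c, hc⟩ := exists_code hC
    refine Set.mem_iUnion.2 ⟨c, fun k => ?_⟩
    rw [hc]
    exact Part.mem_some _
  refine (Set.countable_iUnion fun c => ?_).mono h1
  refine Set.Subsingleton.countable ?_
  intro C hC C' hC'
  funext k
  exact Encodable.encode_injective (Part.mem_unique (hC k) (hC' k))

theorem isMeagre_NN (z : ℕ → Bool) : IsMeagre (NN z) := by
  have h1 : {C | Computes z C}.Countable := countable_computes z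
  have : Countable {C | Computes z C} := h1
  have h2 : NN z = ⋃ C : {C | Computes z C}, Mg C.1 := by
    ext x
    simp [NN]
  rw [h2]
  exact isMeagre_iUnion fun C => isMeagre_Mg _

theorem mem_NN {z x : ℕ → Bool} : x ∈ NN z ↔ ∃ C, Computes z C ∧ x ∈ Mg C := by
  simp [NN]

theorem Captures.subset_NN {y : ℕ → Bool} {S : Set (ℕ → Bool)} (h : Captures y S) :
    S ⊆ NN y := by
  obtain ⟨C, hC, hS⟩ := h
  exact fun x hx => mem_NN.2 ⟨C, hC, hS hx⟩

end Pool.Agent.Helper56WM
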