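import Mathlib
import Pool.Agent.Helper56_WM.Codes

/-!
# Functions of a real that depend locally on it
-/

set_option autoImplicit false

namespace Pool.Agent.Helper56WM

open Pool.Agent.Helper25TD Pool.Agent.Helper55AX

/-- the value of `F` depends only on finitely many values of `x` -/
def Loc {ι α : Type*} (x : ι → (ℕ → Bool)) (F : ι → α) : Prop :=
  ∀ i, ∃ n, ∀ j, (∀ l < n, x j l = x i l) → F j = F i

theorem Loc.const {ι α : Type*} (x : ι → (ℕ → Bool)) (a : α) : Loc x fun _ => a :=
  fun _ => ⟨0, fun _ _ => rfl⟩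

theorem Loc.apply {ι : Type*} (x : ι → (ℕ → Bool)) (l : ℕ) : Loc x fun i => x i l :=
  fun _ => ⟨l + 1, fun _ h => h l (Nat.lt_succ_self l)⟩

theorem Loc.bind {ι α β : Type*} {x : ι → (ℕ → Bool)} {F : ι → α} {H : ι → α → β}
    (hF : Loc x F) (hH : ∀ a, Loc x fun i => H i a) : Loc x fun i => H i (F i) := by
  intro i
  obtain ⟨n, hn⟩ := hF i
  obtain ⟨m, hm⟩ := hH (F i) i
  refine ⟨max n m, fun j hj => ?_⟩
  have h1 := hn j fun l hl => hj l (hl.trans_le (le_max_left _ _))
  have h2 := hm j fun l hl => hj l (hl.trans_le (le_max_right _ _))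
  simp only at h2 ⊢
  rw [h1, h2]

theorem Loc.map {ι α β : Type*} {x : ι → (ℕ → Bool)} {F : ι → α} (hF : Loc x F) (H : α → β) :
    Loc x fun i => H (F i) := hF.bind (H := fun _ a => H a) fun a => Loc.const x (H a)

theorem Loc.map₂ {ι α β γ : Type*} {x : ι → (ℕ → Bool)} {F : ι → α} {G : ι → β} (hF : Loc x F)
    (hG : Loc x G) (H : α → β → γ) : Loc x fun i => H (F i) (G i) :=
  hF.bind (H := fun i a => H a (G i)) fun a => hG.map (H a)

/-- dependence on finitely many local functions -/
theorem Loc.of_finset {ι α β γ : Type*} {x : ι → (ℕ → Bool)} {F : ι → β → γ} {H : ι → α}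
    (hF : ∀ b, Loc x fun i => F i b) (S : ι → Finset β)
    (hH : ∀ i j, (∀ b ∈ S i, F j b = F i b) → H j = H i) : Loc x H := by
  classical
  intro i
  have h1 : ∀ T : Finset β, ∃ n, ∀ j, (∀ l < n, x j l = x i l) → ∀ b ∈ T, F j b = F i b := by
    intro T
    induction T using Finset.induction_on with
    | empty => exact ⟨0, fun j _ b hb => absurd hb (Finset.notMem_empty b)⟩
    | insert c T _ ih =>
      obtain ⟨n, hn⟩ := ih
      obtain ⟨m, hm⟩ := hF c i
      refine ⟨max n m, fun j hj b hb => ?_⟩
      rcases Finset.mem_insert.1 hb with rfl | hb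
      · exact hm j fun l hl => hj l (hl.trans_le (le_max_right _ _))
      · exact hn j (fun l hl => hj l (hl.trans_le (le_max_left _ _))) b hb
  obtain ⟨n, hn⟩ := h1 (S i)
  exact ⟨n, fun j hj => hH i j (hn j hj)⟩

theorem Loc.search {ι : Type*} {x : ι → (ℕ → Bool)} {P : ι → ℕ → Prop}
    (hP : ∀ n, Loc x fun i => P i n) (hex : ∀ i, ∃ n, P i n) :
    Loc x fun i => sInf {n | P i n} := by
  classical
  refine Loc.of_finset (F := P) hP (fun i => Finset.range (sInf {n | P i n} + 1))
    fun i j h => ?_
  have h1 : P i (sInf {n | P i n}) := Nat.sInf_mem (s := {n | P i n}) (hex i)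
  have h2 : P j (sInf {n | P j n}) := Nat.sInf_mem (s := {n | P j n}) (hex j)
  apply le_antisymm
  · refine Nat.sInf_le ?_
    change P j _
    rw [h _ (Finset.mem_range.2 (Nat.lt_succ_self _))]
    exact h1
  · by_contra hcon
    push Not at hcon
    have h3 := h _ (Finset.mem_range.2 (hcon.trans (Nat.lt_succ_self _)))
    rw [h3] at h2
    exact Nat.notMem_of_lt_sInf (s := {n | P i n}) hcon h2

/-- the graph of a number function -/
noncomputable def grf (F : ℕ → ℕ) : ℕ → Bool := by
  classical
  exact fun m => decide (F m.unpair.1 = m.unpair.2)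

theorem grf_pair (F : ℕ → ℕ) (k : ℕ) : grf F (Nat.pair k (F k)) = true := by
  classical
  simp [grf]

theorem TR_of_grf {F : ℕ → ℕ} {y : ℕ → Bool} (hy : TLE (grf F) y) : TR y F := by
  classical
  have h1 : TR y fun p => 1 - (grf F p).toNat := by
    have h2 : TR y fun n => 1 - n := TR.prim (Primrec.nat_sub.comp (Primrec.const 1) Primrec.id)
    exact h2.comp (TR.of_le hy)
  refine TR.rfind h1 (fun i => ?_) (fun i n hn => ?_)
  · simp [grf_pair]
  · have : grf F (Nat.pair i n) = false := by
      simp only [grf, Nat.unpair_pair, decide_eq_false_iff_not]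
      omega
    simp [this]

/-- The value of a local function is computable relative to a fixed real. -/
theorem Loc.exists_TR {ι : Type*} (x : ι → (ℕ → Bool)) (F : ι → ℕ → ℕ)
    (hF : ∀ k, Loc x fun i => F i k) :
    ∃ Z : ℕ → Bool, ∀ i J, TLE (x i) J → TLE Z J → TR J (F i) := by
  classical
  obtain ⟨Z, hZ⟩ := op x (fun _ _ => []) (fun i => grf (F i)) (fun i l => by
    obtain ⟨n, hn⟩ := hF l.unpair.1 i
    refine ⟨n, ∅, fun j hj _ => ?_⟩
    simp only [grf]
    have h1 := hn j hj
    simp only at h1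
    rw [h1])
  obtain ⟨Y, hY⟩ := exists_bound (ι := Bool)
    (fun b => if b then Z else cg fun _ => [])
  refine ⟨Y, fun i J hx hJ => TR_of_grf (hZ i J hx ?_ ?_)⟩
  · have h1 := hY false
    simp only [Bool.false_eq_true, if_false] at h1
    exact h1.trans hJ
  · have h1 := hY true
    simp only [if_true] at h1
    exact h1.trans hJ

/-- The value of a local map between strings is computable relative to a fixed real. -/
theorem Loc.exists_cg {ι : Type*} (x : ι → (ℕ → Bool)) (F : ι → List Bool → List Bool)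
    (hF : ∀ s, Loc x fun i => F i s) :
    ∃ Z : ℕ → Bool, ∀ i J, TLE (x i) J → TLE Z J → TLE (cg (F i)) J := by
  classical
  obtain ⟨Z, hZ⟩ := op_tree x (fun _ _ => []) F (fun i s => by
    obtain ⟨n, hn⟩ := hF s i
    exact ⟨n, ∅, fun j hj _ => hn j hj⟩)
  obtain ⟨Y, hY⟩ := exists_bound (ι := Bool)
    (fun b => if b then Z else cg fun _ => [])
  refine ⟨Y, fun i J hx hJ => hZ i J hx ?_ ?_⟩
  · have h1 := hY false
    simp only [Bool.false_eq_true, if_false] at h1
    exact h1.trans hJ
  · have h1 := hY true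
    simp only [if_true] at h1
    exact h1.trans hJ

/-- the value of a map between strings depends locally on its code -/
theorem Loc.cg_apply {ι : Type*} (g : ι → List Bool → List Bool) (s : List Bool) :
    Loc (fun i => cg (g i)) fun i => g i s := by
  intro i
  refine ⟨Nat.pair (Encodable.encode s) (Encodable.encode (g i s)) + 1, fun j hj => ?_⟩
  exact cg_spec (hj _ (Nat.lt_succ_self _))

/-- the value of a number function depends locally on its graph -/
theorem Loc.grf_apply {ι : Type*} (F : ι → ℕ → ℕ) (k : ℕ) :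
    Loc (fun i => grf (F i)) fun i => F i k := by
  classical
  intro i
  refine ⟨Nat.pair k (F i k) + 1, fun j hj => ?_⟩
  have h1 := hj _ (Nat.lt_succ_self _)
  simp only at h1
  rw [grf_pair] at h1
  simpa [grf] using h1

theorem Loc.join_left {ι α : Type*} {x y : ι → (ℕ → Bool)} {F : ι → α} (h : Loc x F) :
    Loc (fun i => join (x i) (y i)) F := by
  intro i
  obtain ⟨n, hn⟩ := h i
  refine ⟨2 * n, fun j hj => hn j fun l hl => ?_⟩
  have h1 := hj (2 * l) (by omega)
  simpa [join] using h1

theorem Loc.join_right {ι α : Type*} {x y : ι → (ℕ → Bool)} {F : ι → α} (h : Loc y F) :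
    Loc (fun i => join (x i) (y i)) F := by
  intro i
  obtain ⟨n, hn⟩ := h i
  refine ⟨2 * n + 1, fun j hj => hn j fun l hl => ?_⟩
  have h1 := hj (2 * l + 1) (by omega)
  have h2 : (2 * l + 1) / 2 = l := by omega
  have h3 : (2 * l + 1) % 2 ≠ 0 := by omega
  simpa only [join, h2, h3, if_false] using h1

end Pool.Agent.Helper56WM
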