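import Mathlib
import Pool.Agent.Helper56_WM.Local

/-!
# A real that captures all meager sets with a code computable from `z`, but does not capture a
given point
-/

set_option autoImplicit false

namespace Pool.Agent.Helper56WM

open Pool.Agent.Helper25TD Pool.Agent.Helper55AX

/-- the string `u` contains the string `P (k + j)` at place `j`, for some `j` -/
def Inside (P : ℕ → List Bool) (k : ℕ) (u : List Bool) : Prop :=
  ∃ a b, u = a ++ P (k + a.length) ++ b

theorem Inside.trans {P P' : ℕ → List Bool} {k : ℕ} {u : List Bool} (h : Inside P' k u)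
    (hP : ∀ k, Inside P k (P' k)) : Inside P k u := by
  obtain ⟨a, b, rfl⟩ := h
  obtain ⟨a', b', h'⟩ := hP (k + a.length)
  refine ⟨a ++ a', b' ++ b, ?_⟩
  rw [h', List.length_append, ← add_assoc]
  simp

theorem Inside.self (P : ℕ → List Bool) (k : ℕ) : Inside P k (P k) := ⟨[], [], by simp⟩

/-- merging two codes -/
def merge (P Q : ℕ → List Bool) (k : ℕ) : List Bool := P k ++ Q (k + (P k).length)

theorem inside_merge_left (P Q : ℕ → List Bool) (k : ℕ) : Inside P k (merge P Q k) :=
  ⟨[], Q (k + (P k).length), by simp [merge]⟩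

theorem inside_merge_right (P Q : ℕ → List Bool) (k : ℕ) : Inside Q k (merge P Q k) :=
  ⟨P k, [], by simp [merge]⟩

/-- the sequence `C` begins with the entries of `s` -/
def Agree (s : List (List Bool)) (C : ℕ → List Bool) : Prop :=
  ∀ j < s.length, C j = s.getD j []

/-- `s'` is an extension of `s` whose new entries contain `P` -/
def Ok (P : ℕ → List Bool) (s s' : List (List Bool)) : Prop :=
  s <+: s' ∧ ∀ k, s.length ≤ k → k < s'.length → Inside P k (s'.getD k [])

/-- `C` is an extension of `s` whose new entries contain `P` -/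
def OkI (P : ℕ → List Bool) (s : List (List Bool)) (C : ℕ → List Bool) : Prop :=
  Agree s C ∧ ∀ k ≥ s.length, Inside P k (C k)

theorem Ok.refl (P : ℕ → List Bool) (s : List (List Bool)) : Ok P s s :=
  ⟨List.prefix_rfl, fun k h1 h2 => absurd h2 (by omega)⟩

theorem getD_of_prefix {s s' : List (List Bool)} (h : s <+: s') {k : ℕ} (hk : k < s.length) :
    s'.getD k [] = s.getD k [] := by
  obtain ⟨t, rfl⟩ := h
  simp [List.getD_eq_getElem?_getD, List.getElem?_append_left hk]

theorem Ok.trans {P P' : ℕ → List Bool} {s s' s'' : List (List Bool)} (h : Ok P s s')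
    (h' : Ok P' s' s'') (hP : ∀ k, Inside P k (P' k)) : Ok P s s'' := by
  refine ⟨h.1.trans h'.1, fun k h1 h2 => ?_⟩
  by_cases h3 : k < s'.length
  · rw [getD_of_prefix h'.1 h3]
    exact h.2 k h1 h3
  · exact (h'.2 k (by omega) h2).trans hP

/-- the graph of a sequence of strings -/
noncomputable def gr (C : ℕ → List Bool) : ℕ → Bool := grf fun k => Encodable.encode (C k)

theorem gr_congr {C C' : ℕ → List Bool} {n m : ℕ} (h : ∀ j < n, C' j = C j) (hm : m < n) :
    gr C' m = gr C m := by
  classical
  have h1 := h _ ((Nat.unpair_left_le m).trans_lt hm)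
  simp only [gr, grf, h1]

/-- the initial segment of length `n` of the oracle and the entries `s` force the value `v` -/
def Force (c : OCode) (z : ℕ → Bool) (n : ℕ) (s : List (List Bool)) (k v : ℕ) : Prop :=
  ∀ z' C', (∀ j < n, z' j = z j) → Agree s C' → v ∈ eval (chi (join z' (gr C'))) c k

/-- the test used in the search -/
def Hit2 (c : OCode) (s : List (List Bool)) (z : ℕ → Bool) (P : ℕ → List Bool) (k n : ℕ) : Prop :=
  ∃ q : List (List Bool) × (List Bool × ℕ), Encodable.decode n = some q ∧ Ok P s q.1 ∧
    Force c z q.2.2 q.1 k (Encodable.encode q.2.1)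

/-- all values can be forced -/
def Tot2 (c : OCode) (s : List (List Bool)) (z : ℕ → Bool) (P : ℕ → List Bool) : Prop :=
  ∀ k, ∃ s' u m, Ok P s s' ∧ Force c z m s' k (Encodable.encode (u : List Bool))

/-- the first value that can be forced -/
noncomputable def val (c : OCode) (s : List (List Bool)) (z : ℕ → Bool) (P : ℕ → List Bool)
    (k : ℕ) : List Bool :=
  ((Encodable.decode (sInf {n | Hit2 c s z P k n}) :
    Option (List (List Bool) × (List Bool × ℕ))).getD ([], ([], 0))).2.1

theorem Tot2.exists_hit {c : OCode} {s : List (List Bool)} {z : ℕ → Bool} {P : ℕ → List Bool}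
    (h : Tot2 c s z P) (k : ℕ) : ∃ n, Hit2 c s z P k n := by
  obtain ⟨s', u, m, h1, h2⟩ := h k
  exact ⟨Encodable.encode (s', (u, m)), (s', (u, m)), Encodable.encodek _, h1, h2⟩

theorem Tot2.val_spec {c : OCode} {s : List (List Bool)} {z : ℕ → Bool} {P : ℕ → List Bool}
    (h : Tot2 c s z P) (k : ℕ) :
    ∃ s' m, Ok P s s' ∧ Force c z m s' k (Encodable.encode (val c s z P k)) := by
  obtain ⟨q, hq, h1, h2⟩ : Hit2 c s z P k (sInf {n | Hit2 c s z P k n}) :=
    Nat.sInf_mem (s := {n | Hit2 c s z P k n}) (h.exists_hit k)
  refine ⟨q.1, q.2.2, h1, ?_⟩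
  unfold val
  rw [hq]
  exact h2

/-! ### locality -/

theorem loc_force {ι : Type*} (z : ι → (ℕ → Bool)) (c : OCode) (n : ℕ) (s : List (List Bool))
    (k v : ℕ) : Loc z fun i => Force c (z i) n s k v := by
  intro i
  refine ⟨n, fun j hj => ?_⟩
  refine propext ⟨fun h z' C' h1 h2 => h z' C' (fun l hl => ?_) h2,
    fun h z' C' h1 h2 => h z' C' (fun l hl => ?_) h2⟩
  · rw [h1 l hl, hj l hl]
  · rw [h1 l hl, hj l hl]

theorem loc_ok {ι : Type*} {x : ι → (ℕ → Bool)} {P : ι → ℕ → List Bool}
    (hP : ∀ b, Loc x fun i => P i b) (s s' : List (List Bool)) :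
    Loc x fun i => Ok (P i) s s' := by
  refine Loc.of_finset hP (fun _ => (Finset.range s'.length).biUnion fun k =>
    Finset.range (k + (s'.getD k []).length + 1)) fun i j h => ?_
  have key : ∀ k < s'.length, Inside (P j) k (s'.getD k []) ↔ Inside (P i) k (s'.getD k []) := by
    intro k hk
    refine exists_congr fun a => exists_congr fun b => ?_
    by_cases ha : a.length ≤ (s'.getD k []).length
    · rw [h (k + a.length) (Finset.mem_biUnion.2 ⟨k, Finset.mem_range.2 hk,
        Finset.mem_range.2 (by omega)⟩)]
    · constructor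
      · intro h1
        exfalso
        have h2 := congrArg List.length h1
        simp only [List.length_append] at h2
        omega
      · intro h1
        exfalso
        have h2 := congrArg List.length h1
        simp only [List.length_append] at h2
        omega
  refine propext (and_congr_right fun _ => ?_)
  exact forall_congr' fun k => forall_congr' fun _ => forall_congr' fun hk => key k hk

theorem loc_val {ι : Type*} (c : OCode) (s : List (List Bool)) {z : ι → (ℕ → Bool)}
    {P : ι → ℕ → List Bool} (h : ∀ i, Tot2 c s (z i) (P i)) (k : ℕ) :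
    Loc (fun i => join (z i) (gr (P i))) fun i => val c s (z i) (P i) k := by
  have hP : ∀ b, Loc (fun i => join (z i) (gr (P i))) fun i => P i b := by
    intro b
    refine Loc.join_right ?_
    have h1 := (Loc.grf_apply (fun i k => Encodable.encode (P i k)) b).map
      fun n => (Encodable.decode n : Option (List Bool)).getD []
    simp only [Encodable.encodek, Option.getD_some] at h1
    exact h1
  refine Loc.map (F := fun i => sInf {n | Hit2 c s (z i) (P i) k n}) ?_
    fun n => ((Encodable.decode n : Option (List (List Bool) × (List Bool × ℕ))).getD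
      ([], ([], 0))).2.1
  refine Loc.search (fun n => ?_) fun i => (h i).exists_hit k
  cases hq : (Encodable.decode n : Option (List (List Bool) × (List Bool × ℕ))) with
  | none =>
    have : (fun i => Hit2 c s (z i) (P i) k n) = fun _ => False := by
      funext i
      simp only [Hit2, hq]
      simp
    rw [this]
    exact Loc.const _ _
  | some q =>
    have : (fun i => Hit2 c s (z i) (P i) k n) = fun i =>
        (Ok (P i) s q.1 ∧ Force c (z i) q.2.2 q.1 k (Encodable.encode q.2.1)) := by
      funext i
      simp only [Hit2, hq]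
      simp
    rw [this]
    exact (loc_ok hP s q.1).map₂ (Loc.join_left (loc_force z c q.2.2 q.1 k _)) fun a b => a ∧ b

theorem TLE_grf {F : ℕ → ℕ} {y : ℕ → Bool} (h : TR y F) : TLE (grf F) y := by
  classical
  refine TR.to_le ?_
  have h1 : Primrec fun m : ℕ => if (Nat.unpair m).1 = (Nat.unpair m).2 then 1 else 0 :=
    Primrec.ite (Primrec.eq.comp (Primrec.fst.comp Primrec.unpair)
      (Primrec.snd.comp Primrec.unpair)) (Primrec.const 1) (Primrec.const 0)
  have h2 : TR y fun m => F m.unpair.1 := h.comp (TR.prim (Primrec.fst.comp Primrec.unpair))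
  have h3 : TR y fun m => m.unpair.2 := TR.prim (Primrec.snd.comp Primrec.unpair)
  have h4 := (TR.prim (x := y) h1).comp (h2.pair h3)
  refine Nat.RecursiveIn.of_eq h4 fun m => ?_
  simp only [Nat.unpair_pair, grf]
  by_cases h5 : F m.unpair.1 = m.unpair.2 <;> simp [h5]

theorem exists_val_oracle (c : OCode) (s : List (List Bool)) :
    ∃ Z : ℕ → Bool, ∀ z P, Tot2 c s z P → ∀ J, TLE z J → Computes J P → TLE Z J →
      Computes J (val c s z P) := by
  obtain ⟨Z, hZ⟩ := Loc.exists_TR
    (ι := {i : (ℕ → Bool) × (ℕ → List Bool) // Tot2 c s i.1 i.2})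
    (fun i => join i.1.1 (gr i.1.2)) (fun i k => Encodable.encode (val c s i.1.1 i.1.2 k))
    fun k => (loc_val c s (z := fun i : {i : (ℕ → Bool) × (ℕ → List Bool) // Tot2 c s i.1 i.2} =>
      i.1.1) (P := fun i => i.1.2) (fun i => i.2) k).map Encodable.encode
  exact ⟨Z, fun z P h J hz hP hJ => hZ ⟨(z, P), h⟩ J (TLE.join hz (TLE_grf hP)) hJ⟩

theorem computes_merge {z : ℕ → Bool} {P Q : ℕ → List Bool} (hP : Computes z P)
    (hQ : Computes z Q) : Computes z (merge P Q) := by
  have hlen : Primrec fun m : ℕ => ((Encodable.decode m : Option (List Bool)).getD []).length :=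
    Primrec.list_length.comp (Primrec.option_getD.comp Primrec.decode (Primrec.const []))
  have hdec : Primrec fun m : ℕ => (Encodable.decode m : Option (List Bool)).getD [] :=
    Primrec.option_getD.comp Primrec.decode (Primrec.const [])
  have h1 : TR z fun k => ((Encodable.decode (Encodable.encode (P k)) :
      Option (List Bool)).getD []).length :=
    TR.comp (f := fun m => ((Encodable.decode m : Option (List Bool)).getD []).length)
      (TR.prim hlen) hP
  have h2 : TR z fun k => k + (P k).length := by
    have h3 : TR z fun n => (Nat.unpair n).1 + (Nat.unpair n).2 :=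
      TR.prim (Primrec.nat_add.comp (Primrec.fst.comp Primrec.unpair)
        (Primrec.snd.comp Primrec.unpair))
    have h4 := h3.comp ((TR.prim (x := z) Primrec.id).pair h1)
    simpa using h4
  have h5 : TR z fun k => Encodable.encode (Q (k + (P k).length)) :=
    TR.comp (f := fun k => Encodable.encode (Q k)) hQ h2
  have h6 : Primrec fun m : ℕ => Encodable.encode
      ((Encodable.decode m.unpair.1 : Option (List Bool)).getD [] ++
        (Encodable.decode m.unpair.2 : Option (List Bool)).getD []) :=
    Primrec.encode.comp (Primrec.list_append.comp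
      (hdec.comp (Primrec.fst.comp Primrec.unpair)) (hdec.comp (Primrec.snd.comp Primrec.unpair)))
  have h7 := (TR.prim (x := z) h6).comp (TR.pair (f := fun k => Encodable.encode (P k)) hP h5)
  change TR z fun k => Encodable.encode (merge P Q k)
  simpa [merge] using h7

/-! ### the construction -/

/-- the functional `c` with oracle `join z (gr C)` is not total, or one of its values at some
`k ≥ K` occurs in `w` at place `k` -/
def Done (z w : ℕ → Bool) (c : OCode) (K : ℕ) (C : ℕ → List Bool) : Prop :=
  (∃ k, ∀ u : List Bool, Encodable.encode u ∉ eval (chi (join z (gr C))) c k) ∨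
    ∃ k ≥ K, ∃ u : List Bool, Encodable.encode u ∈ eval (chi (join z (gr C))) c k ∧ Occurs u w k

theorem done_step {z w : ℕ → Bool} {c : OCode}
    (hz : ∀ s P, Tot2 c s z P → Computes z P → Computes z (val c s z P)) (hw : w ∉ NN z)
    (s : List (List Bool)) {P : ℕ → List Bool} (hP : Computes z P) (K : ℕ) :
    ∃ s', Ok P s s' ∧ ∀ C, OkI P s' C → Done z w c K C := by
  by_cases h : Tot2 c s z P
  · have h1 : w ∉ Mg (val c s z P) := fun h2 => hw (mem_NN.2 ⟨_, hz s P h hP, h2⟩)
    simp only [Mg, Set.mem_ofPred_eq, not_exists, not_forall, not_not] at h1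
    obtain ⟨k, hk, hocc⟩ := h1 K
    obtain ⟨s', m, h2, h3⟩ := h.val_spec k
    exact ⟨s', h2, fun C hC => Or.inr ⟨k, hk, _, h3 z C (fun _ _ => rfl) hC.1, hocc⟩⟩
  · unfold Tot2 at h
    push Not at h
    obtain ⟨k, hk⟩ := h
    refine ⟨s, Ok.refl P s, fun C hC => Or.inl ⟨k, fun u hu => ?_⟩⟩
    obtain ⟨N, hN⟩ := use_principle _ c _ _ hu
    let s' := (List.range (max N s.length)).map C
    have hlen : s'.length = max N s.length := by simp [s']
    have hget : ∀ j < max N s.length, s'.getD j [] = C j := by
      intro j hj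
      simp [s', List.getD_eq_getElem?_getD, hj]
    refine hk s' u N ⟨?_, fun j h1 h2 => ?_⟩ fun z' C' h1 h2 => ?_
    · rw [List.prefix_iff_eq_take]
      apply List.ext_getElem?
      intro j
      rcases Nat.lt_or_ge j s.length with hj | hj
      · rw [List.getElem?_take_of_lt hj]
        have h1 : C j = s.getD j [] := hC.1 j hj
        have h2 := hget j (hj.trans_le (le_max_right _ _))
        have hj' : j < s'.length := by
          rw [hlen]
          exact hj.trans_le (le_max_right _ _)
        rw [h1] at h2
        rw [List.getElem?_eq_getElem hj, List.getElem?_eq_getElem hj']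
        rw [List.getD_eq_getElem?_getD, List.getD_eq_getElem?_getD, List.getElem?_eq_getElem hj,
          List.getElem?_eq_getElem hj', Option.getD_some, Option.getD_some] at h2
        rw [h2]
      · rw [List.getElem?_eq_none hj, List.getElem?_eq_none]
        rw [List.length_take]
        exact (min_le_left _ _).trans hj
    · rw [hlen] at h2
      rw [hget j h2]
      exact hC.2 j h1
    · refine hN _ fun i hi => ?_
      unfold join
      split_ifs
      · exact h1 _ (by omega)
      · refine gr_congr (n := N) (fun j hj => ?_) (by omega)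
        have hj' : j < max N s.length := hj.trans_le (le_max_left _ _)
        rw [h2 j (by rw [hlen]; exact hj'), hget j hj']

theorem exists_dominate : ∃ Z : ℕ → Bool, ∀ z, TLE Z z → ∀ w, w ∉ NN z →
    ∃ y C, TLE z y ∧ Computes y C ∧ NN z ⊆ Mg C ∧ w ∉ NN y := by
  classical
  choose Zf hZf using exists_val_oracle
  obtain ⟨Z, hZ⟩ := exists_bound (ι := OCode × List (List Bool)) (fun i => Zf i.1 i.2)
  refine ⟨Z, fun z hz w hw => ?_⟩
  have hval : ∀ c s P, Tot2 c s z P → Computes z P → Computes z (val c s z P) :=
    fun c s P h hP => hZf c s z P h z (TLE.refl z) hP ((hZ (c, s)).trans hz)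
  -- enumerations
  have hne : {C | Computes z C}.Nonempty :=
    ⟨fun _ => [], TR.prim (x := z) (f := fun _ => Encodable.encode ([] : List Bool))
      (Primrec.const _)⟩
  obtain ⟨eC, heC⟩ := (countable_computes z).exists_eq_range hne
  obtain ⟨ec, hec⟩ : ∃ e : ℕ → OCode × ℕ, Function.Surjective e := by
    have : Nonempty (OCode × ℕ) := ⟨(OCode.zero, 0)⟩
    exact exists_surjective_nat _
  have heC' : ∀ n, Computes z (eC n) := fun n => by
    have : eC n ∈ {C | Computes z C} := by
      rw [heC]
      exact Set.mem_range_self n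
    exact this
  have step : ∀ n (p : {p : List (List Bool) × (ℕ → List Bool) // Computes z p.2}),
      ∃ q : {p : List (List Bool) × (ℕ → List Bool) // Computes z p.2},
        Ok p.1.2 p.1.1 q.1.1 ∧ (∀ k, Inside p.1.2 k (q.1.2 k)) ∧ p.1.1.length < q.1.1.length ∧
        (∀ k, Inside (eC n) k (q.1.2 k)) ∧
        ∀ C, OkI q.1.2 q.1.1 C → Done z w (ec n).1 (ec n).2 C := by
    rintro n ⟨⟨s, P⟩, hP⟩
    dsimp only at hP ⊢
    have hPQ := computes_merge hP (heC' n)
    obtain ⟨s1, h1, h2⟩ := done_step (hval (ec n).1) hw (s ++ [merge P (eC n) s.length])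
      hPQ (ec n).2
    have h0 : Ok (merge P (eC n)) s (s ++ [merge P (eC n) s.length]) := by
      refine ⟨List.prefix_append _ _, fun k hk1 hk2 => ?_⟩
      have hk : k = s.length := by
        rw [List.length_append, List.length_singleton] at hk2
        omega
      subst hk
      simp only [List.getD_eq_getElem?_getD, List.getElem?_concat_length, Option.getD_some]
      exact Inside.self _ _
    have h3 : Ok (merge P (eC n)) s s1 := h0.trans h1 (Inside.self _)
    refine ⟨⟨(s1, merge P (eC n)), hPQ⟩, ⟨h3.1, fun k hk1 hk2 => ?_⟩,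
      inside_merge_left P (eC n), ?_, inside_merge_right P (eC n), h2⟩
    · exact (h3.2 k hk1 hk2).trans (inside_merge_left P (eC n))
    · have := h1.1.length_le
      rw [List.length_append, List.length_singleton] at this
      exact this
  choose F hF using step
  let st : ℕ → {p : List (List Bool) × (ℕ → List Bool) // Computes z p.2} :=
    fun n => Nat.rec ⟨([], fun _ => []), TR.prim (x := z)
      (f := fun _ => Encodable.encode ([] : List Bool)) (Primrec.const _)⟩ F n
  have hst : ∀ n, st (n + 1) = F n (st n) := fun n => rfl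
  have hle : ∀ m n, m ≤ n → Ok (st m).1.2 (st m).1.1 (st n).1.1 ∧
      ∀ k, Inside (st m).1.2 k ((st n).1.2 k) := by
    intro m n h
    induction h with
    | refl => exact ⟨Ok.refl _ _, Inside.self _⟩
    | @step n' _ ih =>
      have h1 := hF n' (st n')
      rw [← hst] at h1
      exact ⟨ih.1.trans h1.1 ih.2, fun k => (h1.2.1 k).trans ih.2⟩
  have hlen : ∀ n, n ≤ (st n).1.1.length := by
    intro n
    induction n with
    | zero => exact Nat.zero_le _
    | succ n ih =>
      have h1 := (hF n (st n)).2.2.1
      rw [← hst] at h1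
      omega
  let C : ℕ → List Bool := fun k => (st (k + 1)).1.1.getD k []
  have hC : ∀ n k, k < (st n).1.1.length → C k = (st n).1.1.getD k [] := by
    intro n k hk
    have h1 : k < (st (k + 1)).1.1.length := hlen (k + 1)
    rcases le_total n (k + 1) with h | h
    · exact getD_of_prefix (hle n (k + 1) h).1.1 hk
    · exact (getD_of_prefix (hle (k + 1) n h).1.1 h1).symm
  have hOk : ∀ n, OkI (st n).1.2 (st n).1.1 C := by
    intro n
    refine ⟨fun j hj => hC n j hj, fun k hk => ?_⟩
    have h1 : k < (st (max n (k + 1))).1.1.length := by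
      have := hlen (max n (k + 1))
      have := le_max_right n (k + 1)
      omega
    rw [hC _ k h1]
    exact (hle n _ (le_max_left _ _)).1.2 k hk h1
  refine ⟨join z (gr C), C, TLE.join_left _ _,
    TR_of_grf (F := fun k => Encodable.encode (C k)) (TLE.join_right _ _), fun x hx => ?_,
    fun hwy => ?_⟩
  · obtain ⟨C', hC', hx⟩ := mem_NN.1 hx
    have h1 : C' ∈ {C | Computes z C} := hC'
    rw [heC] at h1
    obtain ⟨n, rfl⟩ := h1
    refine Mg.mono (K := (st (n + 1)).1.1.length) (fun k hk => ?_) hx
    have h2 := (hOk (n + 1)).2 k hk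
    have h3 := (hF n (st n)).2.2.2.1
    rw [← hst] at h3
    exact h2.trans h3
  · obtain ⟨C', hC', N, hN⟩ := mem_NN.1 hwy
    obtain ⟨c, hc⟩ := exists_code hC'
    obtain ⟨n, hn⟩ := hec (c, N)
    have h1 := (hF n (st n)).2.2.2.2 C
    rw [← hst, hn] at h1
    have h2 : ∀ k (u : List Bool), Encodable.encode u ∈ eval (chi (join z (gr C))) c k ↔
        u = C' k := by
      intro k u
      rw [hc]
      constructor
      · intro h
        exact Encodable.encode_injective (Part.mem_some_iff.1 h)
      · rintro rfl
        exact Part.mem_some _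
    rcases h1 (hOk (n + 1)) with ⟨k, hk⟩ | ⟨k, hk, u, hu, hocc⟩
    · exact hk (C' k) ((h2 k _).2 rfl)
    · rw [(h2 k u).1 hu] at hocc
      exact hN k hk hocc

end Pool.Agent.Helper56WM
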