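import Mathlib
import Pool.Agent.Helper56_WM.Local

/-!
# Fusion: a subtree on which the meager sets coded by the values of a functional are all contained
in one meager set
-/

set_option autoImplicit false

namespace Pool.Agent.Helper56WM

open Pool.Agent.Helper25TD Pool.Agent.Helper55AX

/-- the string `s` forces that the functional `c` has the value `v` at `k` -/
def WN (c : OCode) (s : List Bool) (k v : ℕ) : Prop := ∀ x, Ext s x → v ∈ eval (chi x) c k

theorem WN.mono {c : OCode} {s t : List Bool} {k v : ℕ} (h : WN c s k v) (hst : s <+: t) :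
    WN c t k v := fun x hx => h x (hx.of_prefix hst)

/-- the test used in the search -/
def Hit (c : OCode) (g : List Bool → List Bool) (r : List Bool) (k n : ℕ) : Prop :=
  ∃ q : List Bool × List Bool, Encodable.decode n = some q ∧
    WN c (g (r ++ q.1)) k (Encodable.encode q.2)

/-- the first extension of `r` that forces a value of the functional at `k` -/
noncomputable def sel (c : OCode) (g : List Bool → List Bool) (r : List Bool) (k : ℕ) :
    List Bool × List Bool :=
  (Encodable.decode (sInf {n | Hit c g r k n})).getD ([], [])

/-- the functional can be made total on a subtree -/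
def Tot (c : OCode) (g : List Bool → List Bool) : Prop :=
  ∀ r k, ∃ p u, WN c (g (r ++ p)) k (Encodable.encode (u : List Bool))

theorem Tot.exists_hit {c : OCode} {g : List Bool → List Bool} (h : Tot c g) (r : List Bool)
    (k : ℕ) : ∃ n, Hit c g r k n := by
  obtain ⟨p, u, hpu⟩ := h r k
  exact ⟨Encodable.encode (p, u), (p, u), Encodable.encodek _, hpu⟩

theorem Tot.sel_spec {c : OCode} {g : List Bool → List Bool} (h : Tot c g) (r : List Bool)
    (k : ℕ) : WN c (g (r ++ (sel c g r k).1)) k (Encodable.encode (sel c g r k).2) := by
  obtain ⟨q, hq, h1⟩ : Hit c g r k (sInf {n | Hit c g r k n}) :=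
    Nat.sInf_mem (s := {n | Hit c g r k n}) (h.exists_hit r k)
  unfold sel
  rw [hq]
  exact h1

/-- one level of the fusion: the nodes in the list are extended one after the other -/
noncomputable def pass (c : OCode) (g : List Bool → List Bool) :
    List (List Bool) → (List Bool → List Bool) → ℕ → (List Bool → List Bool) × List Bool
  | [], B, _ => (B, [])
  | σ :: L, B, k =>
    let q := sel c g (B σ) k
    let R := pass c g L (Function.update B σ (B σ ++ q.1)) (k + q.2.length)
    (R.1, q.2 ++ R.2)

theorem prefix_pass (c : OCode) (g : List Bool → List Bool) (L : List (List Bool))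
    (B : List Bool → List Bool) (k : ℕ) (τ : List Bool) : B τ <+: (pass c g L B k).1 τ := by
  induction L generalizing B k with
  | nil => exact List.prefix_rfl
  | cons σ L ih =>
    refine List.IsPrefix.trans ?_ (ih _ _)
    by_cases h : τ = σ
    · subst h
      rw [Function.update_self]
      exact List.prefix_append _ _
    · rw [Function.update_of_ne h]

theorem Tot.pass_spec {c : OCode} {g : List Bool → List Bool} (hg : IsTree g) (h : Tot c g)
    (L : List (List Bool)) (B : List Bool → List Bool) (k : ℕ) {τ : List Bool} (hτ : τ ∈ L) :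
    ∃ a u b, (pass c g L B k).2 = a ++ u ++ b ∧
      WN c (g ((pass c g L B k).1 τ)) (k + a.length) (Encodable.encode (u : List Bool)) := by
  induction L generalizing B k with
  | nil => exact absurd hτ (by simp)
  | cons σ L ih =>
    by_cases h1 : τ ∈ L
    · obtain ⟨a, u, b, h2, h3⟩ := ih (Function.update B σ (B σ ++ (sel c g (B σ) k).1))
        (k + (sel c g (B σ) k).2.length) h1
      refine ⟨(sel c g (B σ) k).2 ++ a, u, b, ?_, ?_⟩
      · simp only [pass]
        rw [h2]
        simp
      · rw [List.length_append, ← add_assoc]
        exact h3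
    · have h2 : τ = σ := by
        rcases List.mem_cons.1 hτ with h2 | h2
        · exact h2
        · exact absurd h2 h1
      subst h2
      refine ⟨[], (sel c g (B τ) k).2, (pass c g L
        (Function.update B τ (B τ ++ (sel c g (B τ) k).1)) (k + (sel c g (B τ) k).2.length)).2,
        rfl, ?_⟩
      refine (h.sel_spec (B τ) k).mono (hg.of_prefix ?_)
      have h3 := prefix_pass c g L (Function.update B τ (B τ ++ (sel c g (B τ) k).1))
        (k + (sel c g (B τ) k).2.length) τ
      rwa [Function.update_self] at h3

/-- the nodes at level `k` before and after the extension -/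
noncomputable def lev (c : OCode) (g : List Bool → List Bool) : ℕ → (List Bool → List Bool)
  | 0 => (pass c g (strs 0).toList (fun _ => []) 0).1
  | k + 1 => (pass c g (strs (k + 1)).toList (fun σ => lev c g k (σ.take k) ++ σ.drop k) (k + 1)).1

/-- the nodes at level `k` before the extension -/
noncomputable def base (c : OCode) (g : List Bool → List Bool) (k : ℕ) : List Bool → List Bool :=
  match k with
  | 0 => fun _ => []
  | k + 1 => fun σ => lev c g k (σ.take k) ++ σ.drop k

theorem lev_eq (c : OCode) (g : List Bool → List Bool) (k : ℕ) :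
    lev c g k = (pass c g (strs k).toList (base c g k) k).1 := by
  cases k <;> rfl

/-- the subtree -/
noncomputable def hfu (c : OCode) (g : List Bool → List Bool) (σ : List Bool) : List Bool :=
  lev c g σ.length σ

/-- the code of the meager set -/
noncomputable def Cfu (c : OCode) (g : List Bool → List Bool) (k : ℕ) : List Bool :=
  (pass c g (strs k).toList (base c g k) k).2

theorem hfu_append (c : OCode) (g : List Bool → List Bool) (s : List Bool) (b : Bool) :
    hfu c g s ++ [b] <+: hfu c g (s ++ [b]) := by
  unfold hfu
  rw [List.length_append, List.length_singleton, lev_eq c g (s.length + 1)]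
  have h1 := prefix_pass c g (strs (s.length + 1)).toList (base c g (s.length + 1))
    (s.length + 1) (s ++ [b])
  have h2 : base c g (s.length + 1) (s ++ [b]) = lev c g s.length s ++ [b] := by
    simp [base]
  rwa [h2] at h1

theorem isTree_hfu (c : OCode) (g : List Bool → List Bool) : IsTree (hfu c g) := by
  refine ⟨fun s t => ?_, fun s x h1 h2 => ?_⟩
  · induction t using List.reverseRecOn with
    | nil => rw [List.append_nil]
    | append_singleton t b ih =>
      rw [← List.append_assoc]
      exact ih.trans ((List.prefix_append _ _).trans (hfu_append c g (s ++ t) b))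
  · have h3 := h1.of_prefix (hfu_append c g s true)
    have h4 := h2.of_prefix (hfu_append c g s false)
    exact (isTree_append (hfu c g s)).split [] x (by simpa using h3) (by simpa using h4)

theorem Tot.fusion {c : OCode} {g : List Bool → List Bool} (hg : IsTree g) (h : Tot c g)
    (a : ℕ → Bool) {C : ℕ → List Bool}
    (hC : ∀ k, Encodable.encode (C k) ∈ eval (chi (G (fun s => g (hfu c g s)) a)) c k) :
    Mg C ⊆ Mg (Cfu c g) := by
  refine Mg.mono (K := 0) fun k _ => ?_
  obtain ⟨p, u, q, h1, h2⟩ := h.pass_spec hg (strs k).toList (base c g k) k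
    (τ := pre a k) (by rw [Finset.mem_toList, mem_strs, length_pre])
  refine ⟨p, q, ?_⟩
  have h3 : hfu c g (pre a k) = (pass c g (strs k).toList (base c g k) k).1 (pre a k) := by
    unfold hfu
    rw [length_pre, lev_eq]
  rw [← h3] at h2
  have h4 := h2 _ ((hg.comp (isTree_hfu c g)).ext_G a k)
  have h5 : u = C (k + p.length) :=
    Encodable.encode_injective (Part.mem_unique h4 (hC (k + p.length)))
  rw [← h5]
  exact h1

/-! ### locality -/

theorem loc_sel {ι : Type*} {c : OCode} {g : ι → List Bool → List Bool} (h : ∀ i, Tot c (g i))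
    (r : List Bool) (k : ℕ) : Loc (fun i => cg (g i)) fun i => sel c (g i) r k := by
  refine Loc.map (F := fun i => sInf {n | Hit c (g i) r k n}) ?_
    fun n => (Encodable.decode n : Option (List Bool × List Bool)).getD ([], [])
  refine Loc.search (fun n => ?_) fun i => (h i).exists_hit r k
  cases hq : (Encodable.decode n : Option (List Bool × List Bool)) with
  | none =>
    have : (fun i => Hit c (g i) r k n) = fun _ => False := by
      funext i
      simp [Hit, hq]
    rw [this]
    exact Loc.const _ _
  | some q =>
    have : (fun i => Hit c (g i) r k n) = fun i =>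
        WN c (g i (r ++ q.1)) k (Encodable.encode q.2) := by
      funext i
      simp [Hit, hq]
    rw [this]
    exact (Loc.cg_apply g (r ++ q.1)).map fun s => WN c s k (Encodable.encode q.2)

theorem loc_pass {ι : Type*} {c : OCode} {g : ι → List Bool → List Bool} (h : ∀ i, Tot c (g i))
    (L : List (List Bool)) (B : ι → List Bool → List Bool) (k : ι → ℕ)
    (hB : ∀ τ, Loc (fun i => cg (g i)) fun i => B i τ) (hk : Loc (fun i => cg (g i)) k) :
    (∀ τ, Loc (fun i => cg (g i)) fun i => (pass c (g i) L (B i) (k i)).1 τ) ∧
      Loc (fun i => cg (g i)) fun i => (pass c (g i) L (B i) (k i)).2 := by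
  induction L generalizing B k with
  | nil => exact ⟨hB, Loc.const _ _⟩
  | cons σ L ih =>
    have hq : Loc (fun i => cg (g i)) fun i => sel c (g i) (B i σ) (k i) :=
      (hB σ).bind (H := fun i r => sel c (g i) r (k i)) fun r =>
        hk.bind (H := fun i k => sel c (g i) r k) fun k => loc_sel h r k
    have h1 := ih (fun i => Function.update (B i) σ (B i σ ++ (sel c (g i) (B i σ) (k i)).1))
      (fun i => k i + (sel c (g i) (B i σ) (k i)).2.length) (fun τ => by
        by_cases hτ : τ = σ
        · subst hτ
          simp only [Function.update_self]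
          exact (hB τ).map₂ hq fun r q => r ++ q.1
        · simp only [Function.update_of_ne hτ]
          exact hB τ) (hk.map₂ hq fun k q => k + q.2.length)
    exact ⟨h1.1, hq.map₂ h1.2 fun q r => q.2 ++ r⟩

theorem loc_lev {ι : Type*} {c : OCode} {g : ι → List Bool → List Bool} (h : ∀ i, Tot c (g i))
    (k : ℕ) (σ : List Bool) : Loc (fun i => cg (g i)) fun i => lev c (g i) k σ := by
  induction k generalizing σ with
  | zero => exact (loc_pass h _ (fun _ _ => []) (fun _ => 0) (fun _ => Loc.const _ _)
      (Loc.const _ _)).1 σ
  | succ k ih => exact (loc_pass h _ (fun i σ => lev c (g i) k (σ.take k) ++ σ.drop k)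
      (fun _ => k + 1) (fun τ => (ih (τ.take k)).map fun r => r ++ τ.drop k) (Loc.const _ _)).1 σ

theorem loc_Cfu {ι : Type*} {c : OCode} {g : ι → List Bool → List Bool} (h : ∀ i, Tot c (g i))
    (k : ℕ) : Loc (fun i => cg (g i)) fun i => Cfu c (g i) k := by
  unfold Cfu
  refine (loc_pass h _ (fun i => base c (g i) k) (fun _ => k) (fun τ => ?_) (Loc.const _ _)).2
  cases k with
  | zero => exact Loc.const _ _
  | succ k => exact (loc_lev h k (τ.take k)).map fun r => r ++ τ.drop k

/-- the subtree and the code are computable relative to a fixed real -/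
theorem exists_fusion_oracle (c : OCode) : ∃ Z : ℕ → Bool, ∀ g, Tot c g → ∀ J, TLE (cg g) J →
    TLE Z J → TLE (cg fun s => g (hfu c g s)) J ∧ Computes J (Cfu c g) := by
  obtain ⟨Z1, h1⟩ := Loc.exists_cg (ι := {g // Tot c g}) (fun i => cg i.1)
    (fun i s => i.1 (hfu c i.1 s)) (fun s => by
      refine Loc.bind (F := fun i : {g // Tot c g} => hfu c i.1 s) (H := fun i r => i.1 r) ?_
        fun r => Loc.cg_apply (fun i : {g // Tot c g} => i.1) r
      exact loc_lev (g := fun i : {g // Tot c g} => i.1) (fun i => i.2) s.length s)
  obtain ⟨Z2, h2⟩ := Loc.exists_TR (ι := {g // Tot c g}) (fun i => cg i.1)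
    (fun i k => Encodable.encode (Cfu c i.1 k)) (fun k =>
      (loc_Cfu (g := fun i : {g // Tot c g} => i.1) (fun i => i.2) k).map Encodable.encode)
  exact ⟨join Z1 Z2, fun g hg J hgJ hJ => ⟨h1 ⟨g, hg⟩ J hgJ ((TLE.join_left _ _).trans hJ),
    h2 ⟨g, hg⟩ J hgJ ((TLE.join_right _ _).trans hJ)⟩⟩

end Pool.Agent.Helper56WM
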