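import Mathlib
import Pool.Agent.Helper56_WM.Fusion

/-!
# Upper bounds of increasing sequences with the Sacks property
-/

set_option autoImplicit false

namespace Pool.Agent.Helper56WM

open Pool.Agent.Helper25TD Pool.Agent.Helper55AX Set

/-- a sufficiently strong oracle -/
structure Strong (J : ℕ → Bool) : Prop where
  good : Good J
  fus : ∀ c g, Tot c g → TLE (cg g) J → TLE (cg fun s => g (hfu c g s)) J ∧ Computes J (Cfu c g)

theorem exists_strong : ∃ Z : ℕ → Bool, ∀ J, TLE Z J → Strong J := by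
  obtain ⟨Z1, h1⟩ := exists_good
  choose Z2 h2 using exists_fusion_oracle
  obtain ⟨Y, hY⟩ := exists_bound (ι := Option OCode) (fun o => o.elim Z1 Z2)
  refine ⟨Y, fun J hJ => ⟨h1 J ((hY none).trans hJ), fun c g hg hgJ => ?_⟩⟩
  exact h2 c g hg J hgJ ((hY (some c)).trans hJ)

/-- one functional -/
theorem sacks_functional {z : ℕ → Bool} (hz : Strong z) (c : OCode)
    {g : List Bool → List Bool} (hg : IsTree g) (hgz : TLE (cg g) z) :
    ∃ g' : List Bool → List Bool, IsTree g' ∧ TLE (cg g') z ∧ (∀ a, ∃ a', G g' a = G g a') ∧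
      ∃ C', Computes z C' ∧ ∀ a (C : ℕ → List Bool),
        (∀ k, Encodable.encode (C k) ∈ eval (chi (G g' a)) c k) → Mg C ⊆ Mg C' := by
  by_cases h : Tot c g
  · obtain ⟨h1, h2⟩ := hz.fus c g h hgz
    exact ⟨fun s => g (hfu c g s), hg.comp (isTree_hfu c g), h1,
      fun a => ⟨_, hg.G_comp (isTree_hfu c g) a⟩, Cfu c g, h2, fun a C hC => h.fusion hg a hC⟩
  · unfold Tot at h
    push Not at h
    obtain ⟨r, k, hrk⟩ := h
    refine ⟨fun s => g (r ++ s), hg.comp (isTree_append r), hz.good.app g r hgz,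
      fun a => ⟨_, G_append hg r a⟩, fun _ => [], ?_, fun a C hC => ?_⟩
    · exact TR.prim (x := z) (f := fun _ => Encodable.encode ([] : List Bool)) (Primrec.const _)
    · exfalso
      obtain ⟨N, hN⟩ := use_principle _ c _ _ (hC k)
      refine hrk (pre a N) (C k) fun x hx => hN x fun i hi => ?_
      have hT : IsTree fun s => g (r ++ s) := hg.comp (isTree_append r)
      have h1 := hT.length_le (pre a N)
      rw [length_pre] at h1
      have h2 := hx i (by omega)
      have h3 := hT.ext_G a N i (by omega)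
      rw [h2] at h3
      exact Option.some.inj h3

/-- one step of the construction -/
theorem sacks_step {z z' : ℕ → Bool} (hz : ∀ J, TLE z J → Strong J) (hzz : TLE z z') (c : OCode)
    {g : List Bool → List Bool} (hg : IsTree g) (hgz : TLE (cg g) z) :
    ∃ g' : List Bool → List Bool, IsTree g' ∧ TLE (cg g') z' ∧ (∀ a, ∃ a', G g' a = G g a') ∧
      (∃ C', Computes z C' ∧ ∀ a (C : ℕ → List Bool),
        (∀ k, Encodable.encode (C k) ∈ eval (chi (G g' a)) c k) → Mg C ⊆ Mg C') ∧
      ∀ a, TLE z (G g' a) → TLE z' (G g' a) := by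
  obtain ⟨g1, h1, h2, h3, C', h4, h5⟩ := sacks_functional (hz z (TLE.refl z)) c hg hgz
  have h7 : ∀ a, G (fun s => g1 (zp z' s)) a = G g1 (join z' a) := by
    intro a
    rw [← G_zp z' a]
    exact h1.G_comp (isTree_zp z') a
  refine ⟨fun s => g1 (zp z' s), h1.comp (isTree_zp z'), ?_, fun a => ?_,
    ⟨C', h4, fun a C hC => ?_⟩, fun a hza => ?_⟩
  · exact (hz z' hzz).good.zpc g1 z' (h2.trans hzz) (TLE.refl z')
  · rw [h7]
    exact h3 _
  · rw [h7] at hC
    exact h5 _ C hC
  · have h9 := (hz _ hza).good.inv g1 (join z' a) h1 (h2.trans hza)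
      (by rw [← h7]; exact TLE.refl _)
    exact (TLE.join_left z' a).trans h9

/-- **Upper bounds with the Sacks property.** -/
theorem exists_sacks : ∃ Z : ℕ → Bool, ∀ z : ℕ → (ℕ → Bool), TLE Z (z 0) →
    (∀ n, TLE (z n) (z (n + 1))) → ∃ t, (∀ n, TLE (z n) t) ∧
      ∀ C, Computes t C → ∃ n C', Computes (z n) C' ∧ Mg C ⊆ Mg C' := by
  obtain ⟨Z, hZ⟩ := exists_strong
  refine ⟨Z, fun z h0 hz => ?_⟩
  have hle : ∀ n, TLE Z (z n) := by
    intro n
    induction n with
    | zero => exact h0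
    | succ n ih => exact ih.trans (hz n)
  have hgood : ∀ n J, TLE (z n) J → Strong J := fun n J hJ => hZ J ((hle n).trans hJ)
  obtain ⟨ec, hec⟩ : ∃ e : ℕ → OCode, Function.Surjective e := by
    have : Nonempty OCode := ⟨OCode.zero⟩
    exact exists_surjective_nat OCode
  have step : ∀ n (g : {g : List Bool → List Bool // IsTree g ∧ TLE (cg g) (z n)}),
      ∃ g' : {g : List Bool → List Bool // IsTree g ∧ TLE (cg g) (z (n + 1))},
        (∀ a, ∃ a', G g'.1 a = G g.1 a') ∧
        (∃ C', Computes (z n) C' ∧ ∀ a (C : ℕ → List Bool),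
          (∀ k, Encodable.encode (C k) ∈ eval (chi (G g'.1 a)) (ec n) k) → Mg C ⊆ Mg C') ∧
        ∀ a, TLE (z n) (G g'.1 a) → TLE (z (n + 1)) (G g'.1 a) := by
    rintro n ⟨g, hg1, hg2⟩
    obtain ⟨g', h1, h2, h3, h4, h5⟩ := sacks_step (hgood n) (hz n) (ec n) hg1 hg2
    exact ⟨⟨g', h1, h2⟩, h3, h4, h5⟩
  choose F hF using step
  let g0 : {g : List Bool → List Bool // IsTree g ∧ TLE (cg g) (z 0)} :=
    ⟨fun s => zp (z 0) s, isTree_zp (z 0),
      (hgood 0 (z 0) (TLE.refl _)).good.zpc (fun s => s) (z 0)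
        (hgood 0 (z 0) (TLE.refl _)).good.idt (TLE.refl _)⟩
  let gs : ∀ n, {g : List Bool → List Bool // IsTree g ∧ TLE (cg g) (z n)} :=
    fun n => Nat.rec g0 F n
  have hgs : ∀ n, gs (n + 1) = F n (gs n) := fun n => rfl
  have hnest : ∀ n, range (G (gs (n + 1)).1) ⊆ range (G (gs n).1) := by
    rintro n _ ⟨a, rfl⟩
    obtain ⟨a', ha'⟩ := (hF n (gs n)).1 a
    rw [hgs, ha']
    exact mem_range_self _
  have hcpt : ∀ n, IsCompact (range (G (gs n).1)) := fun n =>
    isCompact_range (continuous_G _)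
  obtain ⟨t, ht⟩ := IsCompact.nonempty_iInter_of_sequence_nonempty_isCompact_isClosed
    (fun n => range (G (gs n).1)) hnest (fun n => range_nonempty _) (hcpt 0)
    (fun n => (hcpt n).isClosed)
  rw [mem_iInter] at ht
  refine ⟨t, fun n => ?_, fun C hC => ?_⟩
  · induction n with
    | zero =>
      obtain ⟨a, ha⟩ := ht 0
      change G (fun s => zp (z 0) s) a = t at ha
      rw [← ha]
      change TLE (z 0) (G (zp (z 0)) a)
      rw [G_zp]
      exact TLE.join_left _ _
    | succ n ih =>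
      obtain ⟨a, ha⟩ := ht (n + 1)
      have h1 := (hF n (gs n)).2.2 a
      rw [← hgs] at h1
      change G (gs (n + 1)).1 a = t at ha
      rw [ha] at h1
      exact h1 ih
  · obtain ⟨c, hc⟩ := exists_code hC
    obtain ⟨n, rfl⟩ := hec c
    obtain ⟨a, ha⟩ := ht (n + 1)
    change G (gs (n + 1)).1 a = t at ha
    obtain ⟨C', hC', h1⟩ := (hF n (gs n)).2.1
    refine ⟨n, C', hC', h1 a C fun k => ?_⟩
    rw [← hgs, ha, hc]
    exact Part.mem_some _

end Pool.Agent.Helper56WM
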