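import Mathlib
import Pool.Agent.Helper56_WM.Bound
import Pool.Agent.Helper56_WM.Dominate

/-!
# Well-ordered unions of meager sets
-/

set_option autoImplicit false

namespace Pool.Agent.Helper56WM

open Pool.Agent.Helper25TD Pool.Agent.Helper55AX Pool.Agent.Helper56TB

variable {ι : Type*} [LinearOrder ι] {M : ι → Set (ℕ → Bool)}

theorem upto_mono {i j : ι} (h : i ≤ j) : Upto M i ⊆ Upto M j :=
  Set.biUnion_subset_biUnion_left (Set.Iic_subset_Iic.2 h)

theorem subset_upto (i : ι) : M i ⊆ Upto M i := fun _ hx =>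
  Set.mem_biUnion (Set.mem_Iic.2 le_rfl) hx

theorem upto_subset (i : ι) : Upto M i ⊆ ⋃ j, M j := by
  intro x hx
  obtain ⟨j, _, hj⟩ := Set.mem_iUnion₂.1 hx
  exact Set.mem_iUnion.2 ⟨j, hj⟩

/-- the union of all meager initial unions is not meager -/
theorem not_isMeagre_biUnion [WellFoundedLT ι] (hM : ∀ i, IsMeagre (M i))
    (h : ¬ IsMeagre (⋃ i, M i)) : ¬ IsMeagre (⋃ i ∈ {i | IsMeagre (Upto M i)}, Upto M i) := by
  intro hS
  by_cases hall : ∀ i, IsMeagre (Upto M i)
  · refine h (hS.mono fun x hx => ?_)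
    obtain ⟨i, hi⟩ := Set.mem_iUnion.1 hx
    exact Set.mem_biUnion (hall i : i ∈ {i | IsMeagre (Upto M i)}) (subset_upto i hi)
  · push Not at hall
    obtain ⟨i, hi, hmin⟩ := WellFounded.has_min (wellFounded_lt (α := ι))
      {i | ¬ IsMeagre (Upto M i)} hall
    refine hi ((hS.union (hM i)).mono fun x hx => ?_)
    obtain ⟨j, hj, hxj⟩ := Set.mem_iUnion₂.1 hx
    rcases lt_or_eq_of_le (Set.mem_Iic.1 hj) with h1 | h1
    · left
      have h2 : IsMeagre (Upto M j) := by
        by_contra h3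
        exact hmin j h3 h1
      exact Set.mem_biUnion (h2 : j ∈ {i | IsMeagre (Upto M i)}) (subset_upto j hxj)
    · right
      rwa [← h1]

theorem exists_mem_uncaptured [WellFoundedLT ι] (hM : ∀ i, IsMeagre (M i))
    (h : ¬ IsMeagre (⋃ i, M i)) (z : ℕ → Bool) : ∃ t, TLE z t ∧ t ∈ Uncaptured M := by
  obtain ⟨Z, hZ⟩ := exists_sacks
  have step : ∀ y : ℕ → Bool, ∃ (y' : ℕ → Bool) (i : ι), TLE y y' ∧
      ¬ Captures y (Upto M i) ∧ Captures y' (Upto M i) := by
    intro y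
    obtain ⟨i, hi, hiN⟩ : ∃ i, IsMeagre (Upto M i) ∧ ¬ Upto M i ⊆ NN y := by
      by_contra hcon
      push Not at hcon
      refine not_isMeagre_biUnion hM h ((isMeagre_NN y).mono ?_)
      exact Set.iUnion₂_subset hcon
    obtain ⟨C, hC⟩ := exists_Mg hi
    obtain ⟨zC, hzC⟩ := exists_computes C
    exact ⟨join y zC, i, TLE.join_left _ _, fun hcap => hiN hcap.subset_NN,
      C, hzC _ (TLE.join_right _ _), hC⟩
  choose F I h1 h2 h3 using step
  let y : ℕ → (ℕ → Bool) := fun n => Nat.rec (join z Z) (fun _ y => F y) n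
  have hy : ∀ n, y (n + 1) = F (y n) := fun n => rfl
  obtain ⟨t, ht1, ht2⟩ := hZ y (TLE.join_right z Z) (fun n => by
    rw [hy]
    exact h1 _)
  refine ⟨t, (TLE.join_left z Z).trans (ht1 0), ?_⟩
  rintro ⟨C, hC, hCS⟩
  obtain ⟨n, C', hC', hCC⟩ := ht2 C hC
  refine h2 (y n) ⟨C', hC', fun x hx => hCC (hCS ?_)⟩
  have h4 : Captures t (Upto M (I (y n))) := by
    refine (h3 (y n)).mono ?_ subset_rfl
    have := ht1 (n + 1)
    rwa [hy] at this
  exact Set.mem_biUnion (h4 : I (y n) ∈ {i | Captures t (Upto M i)}) hx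

theorem exists_not_mem_uncaptured [WellFoundedLT ι] (hM : ∀ i, IsMeagre (M i))
    (h : ¬ IsMeagre (⋃ i, M i)) (z : ℕ → Bool) : ∃ t, TLE z t ∧ t ∉ Uncaptured M := by
  obtain ⟨Z, hZ⟩ := exists_dominate
  obtain ⟨i, hi, hmin⟩ := WellFounded.has_min (wellFounded_lt (α := ι))
    {i | IsMeagre (Upto M i) ∧ ¬ Upto M i ⊆ NN (join z Z)} (by
      by_contra hcon
      rw [Set.not_nonempty_iff_eq_empty, Set.eq_empty_iff_forall_notMem] at hcon
      refine not_isMeagre_biUnion hM h ((isMeagre_NN (join z Z)).mono ?_)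
      refine Set.iUnion₂_subset fun i hi => ?_
      by_contra hsub
      exact hcon i ⟨hi, hsub⟩)
  obtain ⟨w, hw, hwN⟩ := Set.not_subset.1 hi.2
  obtain ⟨y, C, hzy, hC, hNC, hwy⟩ := hZ (join z Z) (TLE.join_right z Z) w hwN
  refine ⟨y, (TLE.join_left z Z).trans hzy, fun hW => hW ⟨C, hC, ?_⟩⟩
  refine Set.iUnion₂_subset fun j hj => ?_
  have hji : j < i := by
    by_contra hle
    push Not at hle
    exact hwy (Captures.subset_NN hj (upto_mono hle hw))
  have h1 : IsMeagre (Upto M j) := hi.1.mono (upto_mono hji.le)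
  have h2 : Upto M j ⊆ NN (join z Z) := by
    by_contra hsub
    exact hmin j ⟨h1, hsub⟩ hji
  exact h2.trans hNC

theorem cone_of_isMeagre (h : IsMeagre (⋃ i, M i)) :
    ∃ z, ∀ y, TLE z y → y ∉ Uncaptured M := by
  obtain ⟨C, hC⟩ := exists_Mg h
  obtain ⟨z, hz⟩ := exists_computes C
  refine ⟨z, fun y hy hW => hW ⟨C, hz y hy, ?_⟩⟩
  exact Set.iUnion₂_subset fun j _ => (upto_subset j).trans hC

/-- Player I never wins. -/
theorem not_winsI [WellFoundedLT ι] (hM : ∀ i, IsMeagre (M i)) : ¬ WinsI (Uncaptured M) := by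
  intro hw
  obtain ⟨z, hz⟩ := cone_of_winsI (turingInvariant_uncaptured M) hw
  by_cases h : IsMeagre (⋃ i, M i)
  · obtain ⟨z', hz'⟩ := cone_of_isMeagre h
    exact hz' (join z z') (TLE.join_right _ _) (hz _ (TLE.join_left _ _))
  · obtain ⟨t, ht, ht'⟩ := exists_not_mem_uncaptured hM h z
    exact ht' (hz t ht)

/-- Player II wins if and only if the union is meager. -/
theorem winsII_iff' [WellFoundedLT ι] (hM : ∀ i, IsMeagre (M i)) :
    WinsII (Uncaptured M) ↔ IsMeagre (⋃ i, M i) := by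
  constructor
  · intro hw
    by_contra h
    obtain ⟨z, hz⟩ := cone_of_winsII (turingInvariant_uncaptured M) hw
    obtain ⟨t, ht, ht'⟩ := exists_mem_uncaptured hM h z
    exact hz t ht ht'
  · intro h
    obtain ⟨z, hz⟩ := cone_of_isMeagre h
    exact winsII_of_cone hz

end Pool.Agent.Helper56WM
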