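import Mathlib
import Pool.Agent.Helper56_WM.Main

/-!
# Turing determinacy and well-ordered unions of meager sets

For every family `M` of meager sets of reals that is indexed by a well-ordered set, the explicit
Turing invariant set `Uncaptured M` has the following property: player II wins the game with payoff
set `Uncaptured M` if and only if the union of the family is meager, and player I never wins it. So
Turing determinacy implies that the union of every well-ordered family of meager sets of reals is
meager.
-/

set_option autoImplicit false

namespace Pool.Agent.Helper56WM.WellOrderedUnionsResult

open Pool.Agent.Helper25TD Pool.Agent.Helper56WM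

universe u

/-- The game with payoff set `Uncaptured M` is determined if and only if the union of the
well-ordered family `M` of meager sets is meager. -/
theorem result (ι : Type u) [LinearOrder ι] [WellFoundedLT ι] (M : ι → Set (ℕ → Bool)) :
    TuringInvariant (Uncaptured M) ∧ ((∀ i, IsMeagre (M i)) →
      ¬ WinsI (Uncaptured M) ∧ (WinsII (Uncaptured M) ↔ IsMeagre (⋃ i, M i))) :=
  ⟨turingInvariant_uncaptured M, fun hM => ⟨not_winsI hM, winsII_iff' hM⟩⟩

end Pool.Agent.Helper56WM.WellOrderedUnionsResult
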